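import Pool.Agent.K4H68.CL.Level
import Pool.Agent.K4H68.CL.Turan

/-!
# Turán's density `5/9` for `K_4^3`-free 3-graphs with complete split links into lower levels

Let `f` be a level function on the vertices of a `K_4^3`-free 3-graph `H` such that no edge lies
inside a level `i ≥ 1` and such that for every vertex `a` of level at least one the link of `a` in
the set of the vertices of smaller level is a complete split graph: two such vertices `y ≠ z` form
an edge with `a` unless both lie in a set `S a`. Then `|H| ≤ (5/54) n ^ 3` provided that either the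
level `0` satisfies Turán's bound (for example because it is empty), or some level `i ≥ 1` contains
at least one eighth of the vertices of level at most `i` (and nothing is assumed on level `0`).
Turán's construction has such a level function with empty level `0`.
-/

set_option autoImplicit false
open Finset

namespace Pool.Agent.Results.MP_a4d830_co.CliqueComplementLinks

/-- `H` has no four vertices spanning all four triples. -/
def TetraFree {V : Type} (H : Finset (Finset V)) : Prop :=
  ∀ S : Finset V, S.card = 4 → ∃ e ⊆ S, e.card = 3 ∧ e ∉ H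

/-- `f` is a level function for `H`: no edge lies inside one of the levels `1, 2, ...`, and for
every vertex `a` of level at least one there is a set `S` such that two distinct vertices `y`, `z`
of smaller level than `a` form an edge with `a` if and only if they are not both in `S`. -/
def Layered {V : Type} [DecidableEq V] (H : Finset (Finset V)) (f : V → ℕ) : Prop :=
  (∀ e ∈ H, ∀ i ≥ 1, ∃ v ∈ e, f v ≠ i) ∧
  ∀ a, 1 ≤ f a → ∃ S : Finset V, ∀ y z, y ≠ z → f y < f a → f z < f a →
    (({a, y, z} : Finset V) ∈ H ↔ ¬ (y ∈ S ∧ z ∈ S))

theorem result :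
    (∀ (V : Type) [Fintype V] [DecidableEq V] (H : Finset (Finset V)) (f : V → ℕ),
      (∀ e ∈ H, e.card = 3) → TetraFree H → Layered H f →
      (54 * (H.filter fun e => ∀ v ∈ e, f v = 0).card ≤
          5 * (univ.filter fun v => f v = 0).card ^ 3 ∨
        ∃ i ≥ 1, (univ.filter fun v => f v ≤ i).card ≤ 8 * (univ.filter fun v => f v = i).card) →
      54 * H.card ≤ 5 * Fintype.card V ^ 3) ∧
    (∀ t : ℕ, ∃ (H : Finset (Finset (Fin 3 × Fin t))) (f : Fin 3 × Fin t → ℕ),
      (∀ e ∈ H, e.card = 3) ∧ TetraFree H ∧ Layered H f ∧ (∀ v, 1 ≤ f v) ∧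
      2 * H.card + 3 * t ^ 2 = 5 * t ^ 3) := by
  constructor
  · intro V _ _ H f h3 hF hL hb
    apply Pool.Agent.K4H68.CL.level h3 hF f hL.1 hL.2
    rcases hb with hb | hb
    · left
      rw [Pool.Agent.K4H68.CL.E_eq h3]
      have e1 : (Pool.Agent.K4H68.CL.L f 0) = univ.filter fun v => f v = 0 := by
        ext v
        simp [Pool.Agent.K4H68.CL.L]
      have e2 : (H.filter fun e => e ⊆ Pool.Agent.K4H68.CL.L f 0) =
          H.filter fun e => ∀ v ∈ e, f v = 0 := by
        apply Finset.filter_congr
        intro e _
        rw [e1]
        constructor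
        · intro hh v hv
          simpa using hh hv
        · intro hh v hv
          simpa using hh v hv
      rw [e2, e1]
      have : (54 * (H.filter fun e => ∀ v ∈ e, f v = 0).card : ℤ) ≤
          5 * ((univ.filter fun v => f v = 0).card : ℤ) ^ 3 := by exact_mod_cast hb
      linarith
    · right
      exact hb
  · intro t
    exact ⟨Pool.Agent.K4H68.CL.TH t, Pool.Agent.K4H68.CL.lev, Pool.Agent.K4H68.CL.TH_three t,
      Pool.Agent.K4H68.CL.TH_free t,
      ⟨Pool.Agent.K4H68.CL.lev_indep, fun a _ => Pool.Agent.K4H68.CL.lev_link a⟩,
      Pool.Agent.K4H68.CL.lev_pos, Pool.Agent.K4H68.CL.card_TH t⟩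

end Pool.Agent.Results.MP_a4d830_co.CliqueComplementLinks
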