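import Pool.Agent.K4H68.QC.Lower

/-!
# `K_4^3`-free 3-graphs with two independent classes and no one-edge quadruples of type (1,3)

Let the vertex set be the union of two sets `A` and `B` which contain no edge of the `K_4^3`-free
3-graph `H`, and suppose that no vertex of `A` and three vertices of `B` span exactly one edge.
The largest number of edges is determined exactly, for all sizes of `A` and `B`; the density is
`1/2`.  The bound is attained by a half graph construction.

Outline of the upper bound.  For `a` in `A` the non-adjacent pairs of the link of `a` in `B` form an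
equivalence relation.  For `a, a'` in `A` the set `D` of the `b` in `B` with `a a' b` in `H` is
covered by the two equivalence relations of `a` and `a'` (otherwise there is a `K_4^3`), and so `D`
is contained in one class of one of them.  If `m(a)` is the largest size of a class of `a`, then
`H` has at most `∑ max(m(a), m(a')) + ∑ (C(|B|,2) - C(m(a),2))` edges.
-/

set_option autoImplicit false

open Finset Filter

namespace Pool.Agent.Results.MP_a4d830_co.OneEdgeQuadruples

/-- `H` is a 3-graph without four vertices that span all four triples, the set `A` and its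
complement contain no edge of `H`, and no vertex of `A` and three vertices outside `A` span exactly
one edge of `H`. -/
structure Admissible {n : ℕ} (A : Finset (Fin n)) (H : Finset (Finset (Fin n))) : Prop where
  three : ∀ e ∈ H, e.card = 3
  free : ∀ S : Finset (Fin n), S.card = 4 → ∃ e ⊆ S, e.card = 3 ∧ e ∉ H
  indep : ∀ e ∈ H, ¬ e ⊆ A
  indep' : ∀ e ∈ H, ¬ e ⊆ Aᶜ
  quad : ∀ a ∈ A, ∀ T ⊆ Aᶜ, T.card = 3 → (H.filter fun e => e ⊆ insert a T).card ≠ 1

/-- the numbers of edges of these 3-graphs, for given `A` -/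
def sizes {n : ℕ} (A : Finset (Fin n)) : Set ℕ :=
  {x | ∃ H : Finset (Finset (Fin n)), Admissible A H ∧ H.card = x}

/-- `m C(M,2) + C(m+1,3)` with `m = min(a,b)` and `M = max(a,b)` -/
def value (a b : ℕ) : ℕ := min a b * (max a b).choose 2 + (min a b + 1).choose 3

theorem exact {n : ℕ} (A : Finset (Fin n)) : IsGreatest (sizes A) (value A.card Aᶜ.card) := by
  constructor
  · exact ⟨Pool.Agent.K4H68.QC.half A, ⟨Pool.Agent.K4H68.QC.half_three A,
      Pool.Agent.K4H68.QC.half_free A, Pool.Agent.K4H68.QC.half_indep A,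
      Pool.Agent.K4H68.QC.half_indep' A, Pool.Agent.K4H68.QC.half_noSingle A⟩,
      Pool.Agent.K4H68.QC.half_card A⟩
  · rintro x ⟨H, h, rfl⟩
    exact Pool.Agent.K4H68.QC.upper h.three h.free h.indep h.indep' h.quad

theorem two_choose (x : ℕ) : 2 * x.choose 2 = x * (x - 1) := by
  rw [Nat.choose_two_right]
  exact Nat.mul_div_cancel' (Nat.even_mul_pred_self x).two_dvd

theorem step (m N : ℕ) (h : m ≤ N) : value m (N + 1) ≤ value (m + 1) N := by
  rcases Nat.eq_or_lt_of_le h with rfl | h
  · unfold value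
    rw [min_eq_left (by omega), max_eq_right (by omega), min_eq_right (by omega),
      max_eq_left (by omega)]
  · unfold value
    rw [min_eq_left (by omega), max_eq_right (by omega), min_eq_left (by omega),
      max_eq_right (by omega)]
    have h1 : (m + 1 + 1).choose 3 = (m + 1).choose 2 + (m + 1).choose 3 := Nat.choose_succ_succ _ _
    have h2 : (m + 1).choose 2 = m + m.choose 2 := by rw [Nat.choose_succ_succ]; simp
    have h3 : (N + 1).choose 2 = N + N.choose 2 := by rw [Nat.choose_succ_succ]; simp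
    have h4 := two_choose m
    have h5 := two_choose N
    rw [h1, h2, h3]
    obtain ⟨d, rfl⟩ : ∃ d, N = m + 1 + d := ⟨N - (m + 1), by omega⟩
    have h6 : m * (m - 1) + m = m * m := by
      rcases Nat.eq_zero_or_pos m with rfl | hm
      · rfl
      · obtain ⟨e, rfl⟩ : ∃ e, m = e + 1 := ⟨m - 1, by omega⟩
        simp only [Nat.add_sub_cancel]; ring
    have h7 : (m + 1 + d) * (m + 1 + d - 1) = (m + 1 + d) * (m + d) := by
      congr 1
      omega
    rw [h7] at h5
    nlinarith

theorem mono (n m : ℕ) (h : m ≤ n / 2) : value m (n - m) ≤ value (n / 2) (n - n / 2) := by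
  obtain ⟨d, hd⟩ : ∃ d, n / 2 = m + d := ⟨n / 2 - m, by omega⟩
  induction d generalizing m with
  | zero => rw [hd]; exact le_rfl
  | succ d ih =>
    have h1 := step m (n - (m + 1)) (by omega)
    have h2 : n - (m + 1) + 1 = n - m := by omega
    rw [h2] at h1
    exact h1.trans (ih (m + 1) (by omega) (by omega))

theorem value_comm (a b : ℕ) : value a b = value b a := by
  unfold value
  rw [min_comm, max_comm]

theorem best {n : ℕ} (A : Finset (Fin n)) : value A.card Aᶜ.card ≤ value (n / 2) (n - n / 2) := by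
  have h1 : A.card + Aᶜ.card = n := by
    rw [Finset.card_add_card_compl, Fintype.card_fin]
  rcases le_total A.card Aᶜ.card with h | h
  · have h2 : Aᶜ.card = n - A.card := by omega
    rw [h2]
    exact mono n A.card (by omega)
  · have h2 : A.card = n - Aᶜ.card := by omega
    rw [value_comm, h2]
    exact mono n Aᶜ.card (by omega)

theorem limit : Tendsto (fun n : ℕ => (value (n / 2) (n - n / 2) : ℝ) / (n.choose 3 : ℝ)) atTop
    (nhds (1 / 2)) := by
  have hval : ∀ n : ℕ, |(value (n / 2) (n - n / 2) : ℝ) - (n : ℝ) ^ 3 / 12| ≤ (n : ℝ) ^ 2 := by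
    intro n
    have hle : n / 2 ≤ n - n / 2 := by omega
    have hc : ∀ x : ℕ, ((x.choose 2 : ℕ) : ℝ) = x * (x - 1) / 2 := fun x => Nat.cast_choose_two ℝ x
    have hc3 : ∀ x : ℕ, (((x + 1).choose 3 : ℕ) : ℝ) = (x + 1) * x * (x - 1) / 6 := by
      intro x
      have h1 := Nat.add_one_mul_choose_eq x 2
      have h2 : ((x + 1 : ℕ) : ℝ) * (x.choose 2 : ℕ) = ((x + 1).choose 3 : ℕ) * 3 := by
        exact_mod_cast h1
      rw [hc x] at h2
      push_cast at h2
      linarith
    unfold value
    rw [min_eq_left hle, max_eq_right hle]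
    push_cast
    rw [hc, hc3]
    obtain ⟨m, hm | hm⟩ := Nat.even_or_odd' n
    · subst hm
      have e1 : 2 * m / 2 = m := by omega
      have e2 : 2 * m - m = m := by omega
      rw [e1, e2]
      push_cast
      have hm0 : (0 : ℝ) ≤ m := Nat.cast_nonneg m
      have hm1 : (m : ℝ) ≤ m * m := by exact_mod_cast Nat.le_mul_self m
      rw [abs_le]
      constructor <;> nlinarith [mul_nonneg hm0 hm0]
    · subst hm
      have e1 : (2 * m + 1) / 2 = m := by omega
      have e2 : 2 * m + 1 - m = m + 1 := by omega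
      rw [e1, e2]
      push_cast
      have hm0 : (0 : ℝ) ≤ m := Nat.cast_nonneg m
      have hm1 : (m : ℝ) ≤ m * m := by exact_mod_cast Nat.le_mul_self m
      rw [abs_le]
      constructor <;> nlinarith [mul_nonneg hm0 hm0]
  have hch : ∀ n : ℕ, ((n.choose 3 : ℕ) : ℝ) = n * (n - 1) * (n - 2) / 6 := by
    intro n
    rcases Nat.eq_zero_or_pos n with rfl | hn
    · simp
    · obtain ⟨x, rfl⟩ : ∃ x, n = x + 1 := ⟨n - 1, by omega⟩
      have h1 := Nat.add_one_mul_choose_eq x 2
      have h2 : ((x + 1 : ℕ) : ℝ) * (x.choose 2 : ℕ) = ((x + 1).choose 3 : ℕ) * 3 := by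
        exact_mod_cast h1
      rw [Nat.cast_choose_two ℝ x] at h2
      push_cast at h2 ⊢
      linarith
  rw [Metric.tendsto_atTop]
  intro ε hε
  obtain ⟨N, hN⟩ := exists_nat_gt (100 / ε)
  refine ⟨N + 10, fun n hn => ?_⟩
  have hn10 : (10 : ℝ) ≤ n := by exact_mod_cast (by omega : 10 ≤ n)
  have hnN : (N : ℝ) ≤ n := by exact_mod_cast (by omega : N ≤ n)
  have h1 : 100 / ε < n := lt_of_lt_of_le hN hnN
  have h2 : 100 < n * ε := by rwa [div_lt_iff₀ hε] at h1
  have hpos : (0 : ℝ) < n.choose 3 := by
    rw [hch]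
    have : (0 : ℝ) < (n : ℝ) - 1 := by linarith
    have : (0 : ℝ) < (n : ℝ) - 2 := by linarith
    positivity
  have hbig : (n : ℝ) ^ 3 / 12 ≤ n.choose 3 := by
    rw [hch]
    nlinarith [mul_nonneg (by linarith : (0 : ℝ) ≤ n) (by linarith : (0 : ℝ) ≤ (n : ℝ) - 10),
      mul_nonneg (mul_nonneg (by linarith : (0 : ℝ) ≤ n) (by linarith : (0 : ℝ) ≤ (n : ℝ) - 10))
        (by linarith : (0 : ℝ) ≤ n)]
  have hclose : |(n.choose 3 : ℝ) / 2 - (n : ℝ) ^ 3 / 12| ≤ (n : ℝ) ^ 2 := by
    rw [hch, abs_le]
    constructor <;> nlinarith [mul_nonneg (by linarith : (0 : ℝ) ≤ n) (by linarith : (0 : ℝ) ≤ (n : ℝ) - 10)]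
  rw [Real.dist_eq]
  have h3 : (value (n / 2) (n - n / 2) : ℝ) / (n.choose 3 : ℝ) - 1 / 2 =
      ((value (n / 2) (n - n / 2) : ℝ) - (n.choose 3 : ℝ) / 2) / (n.choose 3 : ℝ) := by
    field_simp
  rw [h3, abs_div, abs_of_pos hpos, div_lt_iff₀ hpos]
  have h4 : |(value (n / 2) (n - n / 2) : ℝ) - (n.choose 3 : ℝ) / 2| ≤ 2 * (n : ℝ) ^ 2 := by
    have := hval n
    rw [abs_le] at *
    constructor <;> linarith [this.1, this.2, hclose.1, hclose.2]
  refine lt_of_le_of_lt h4 ?_
  have h5 : ε * ((n : ℝ) ^ 3 / 12) ≤ ε * n.choose 3 := mul_le_mul_of_nonneg_left hbig hε.le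
  refine lt_of_lt_of_le ?_ h5
  have hn2 : (0 : ℝ) < (n : ℝ) ^ 2 := by positivity
  have : ε * ((n : ℝ) ^ 3 / 12) = (n * ε) * (n : ℝ) ^ 2 / 12 := by ring
  rw [this]
  nlinarith

/-- The largest number of edges, for all sizes of the two classes, the largest number over all
partitions of `n` vertices, and the resulting density. -/
theorem result :
    (∀ (n : ℕ) (A : Finset (Fin n)), IsGreatest (sizes A) (value A.card Aᶜ.card)) ∧
    (∀ n : ℕ, IsGreatest (⋃ A : Finset (Fin n), sizes A) (value (n / 2) (n - n / 2))) ∧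
    Tendsto (fun n : ℕ => (value (n / 2) (n - n / 2) : ℝ) / (n.choose 3 : ℝ)) atTop
      (nhds (1 / 2)) := by
  refine ⟨fun n A => exact A, fun n => ⟨?_, ?_⟩, limit⟩
  · obtain ⟨A, -, hA⟩ := Finset.exists_subset_card_eq
      (s := (Finset.univ : Finset (Fin n))) (n := n / 2)
      (by rw [Finset.card_univ, Fintype.card_fin]; omega)
    have h1 : A.card + Aᶜ.card = n := by
      rw [Finset.card_add_card_compl, Fintype.card_fin]
    have h2 := (exact A).1
    rw [hA, (by omega : Aᶜ.card = n - n / 2)] at h2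
    exact Set.mem_iUnion.2 ⟨A, h2⟩
  · intro x hx
    obtain ⟨A, hA⟩ := Set.mem_iUnion.1 hx
    exact ((exact A).2 hA).trans (best A)

end Pool.Agent.Results.MP_a4d830_co.OneEdgeQuadruples
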