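import Pool.Agent.K4H78.SD.Main

/-!
# `π(K_11^4) ≥ 1 - 33/2048` and the large-clique constant of 4-graphs

The notions are those of `Pool.Agent.H120R2.CliqueDefs`: `ex n r m = ex(n, K_m^r)` and
`turanDensity r m = π(K_m^r)`, the limit of `ex(n, K_m^r) / C(n,r)`.

Outline.  Give every vertex a random vector of `V = F_2^6`.  Choose the 4-sets of vertices whose
vectors have sum zero (among them those of type `xxyy` and `xxxx`) and those with three equal vectors
and a fourth one with another first coordinate.  The expected density is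
`1/64 + 4 (1/64)^2 (1/2) = 33/2048`.  Suppose that eleven vertices contain no chosen set.  Then they
have at most one repeated vector, it occurs at most three times, and the set `S` of their vectors has
no four elements with sum zero (a Sidon set).  The subsets of `S` of even size with sum zero form a
binary code of minimum distance at least six and dimension at least `|S| - 7`, in which the average
weight is at most `|S|/2`.  Since `7 · 6 > 4 · 10`, a Sidon set of `F_2^6` has at most nine elements,
so a vector occurs three times and `|S| = 9`.  In the same way a Sidon set of `F_2^5` has at most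
seven elements; hence `S` does not lie in a translate of a hyperplane, and some vector of `S` has
another first coordinate than the repeated one.  The same argument for `F_2^5` gives
`π(K_9^4) ≥ 1 - 17/512`.
-/

set_option autoImplicit false

open Filter Topology

namespace Pool.Agent.Results.MP_a4d830_co.SidonSets

open Pool.Agent.H120R2.Clique
open Pool.Agent.K4H78.SD

/-- All limits `π(K_m^4)` exist; `1 - π(K_m^4) ≤ (17/512) / ⌊(m-1)/8⌋^3` for all `m ≥ 9` and
`1 - π(K_m^4) ≤ (33/2048) / ⌊(m-1)/10⌋^3` for all `m ≥ 11`; and `(m-1)^3 (1 - π(K_m^4))` converges, as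
`m → ∞`, to a limit `L` with `6 < L ≤ 4125/256 < 16.12`. -/
theorem result :
    (∀ m : ℕ, Tendsto (fun n : ℕ => (ex n 4 m : ℝ) / (n.choose 4 : ℝ)) atTop
      (𝓝 (turanDensity 4 m))) ∧
    (∀ m : ℕ, 9 ≤ m →
      1 - turanDensity 4 m ≤ (17 / 512) / (((m - 1) / 8 : ℕ) : ℝ) ^ 3) ∧
    (∀ m : ℕ, 11 ≤ m →
      1 - turanDensity 4 m ≤ (33 / 2048) / (((m - 1) / 10 : ℕ) : ℝ) ^ 3) ∧
    ∃ L : ℝ, Tendsto (fun m : ℕ => ((m : ℝ) - 1) ^ 3 * (1 - turanDensity 4 m)) atTop (𝓝 L) ∧
      6 < L ∧ L ≤ 4125 / 256 := by
  refine ⟨fun m => ratio_tendsto 4 m, fun m hm => ?_, fun m hm => ?_, ?_⟩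
  · exact t_all (j := 9) (by norm_num) t_nine hm
  · exact t_all (j := 11) (by norm_num) t_eleven hm
  · obtain ⟨L, h1, h2, h3⟩ := Pool.Agent.H688R3.TuranGen.exists_limit (s := 3) (by norm_num)
    refine ⟨L, h2, ?_, ?_⟩
    · refine lt_of_lt_of_le ?_ h1
      norm_num [Nat.factorial]
    · have h4 := h3 11 (by norm_num)
      refine h4.trans ?_
      have h5 := t_eleven
      have h6 : ((((11 : ℕ) : ℝ) - 1) ^ 3 : ℝ) = 1000 := by norm_num
      rw [h6]
      linarith

end Pool.Agent.Results.MP_a4d830_co.SidonSets
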