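import Pool.Agent.K4H68.TC.Graph

/-!
# `K_4^3`-free 3-graphs whose vertex set is the union of two independent sets

Such a 3-graph on `n` vertices has at most `13 n ^ 3 / 150` edges; so its density is at most
`13 / 25 + o(1)`, less than the value `5/9` of Turán's conjecture.  (The half graph construction has
density `1/2`.)

For the two classes `A` and `B` let `p` and `q` be the densities of the non-edges of the types `AAB`
and `ABB`.  Three linear inequalities `x p + q ≥ c x`, for `x = 1, 11/10, 14/10`, are proved by
sums of squares over the configurations of three vertices of one class and two vertices of the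
other class, joined by a function on the configurations of two and two vertices.  The inequalities
for the 512 configurations are checked by evaluation in the kernel.
-/

set_option autoImplicit false

open Finset

namespace Pool.Agent.Results.MP_a4d830_co.TwoColourableBound

/-- If `H` is a 3-graph on `n` vertices without four vertices spanning all four triples, and `A`
and its complement contain no edge of `H`, then `H` has at most `13 n ^ 3 / 150` edges. -/
theorem result (n : ℕ) (H : Finset (Finset (Fin n))) (A : Finset (Fin n))
    (three : ∀ e ∈ H, e.card = 3)
    (free : ∀ S : Finset (Fin n), S.card = 4 → ∃ e ⊆ S, e.card = 3 ∧ e ∉ H)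
    (indep : ∀ e ∈ H, ¬ e ⊆ A) (indep' : ∀ e ∈ H, ¬ e ⊆ Aᶜ) :
    150 * H.card ≤ 13 * n ^ 3 := by
  have h := Pool.Agent.K4H68.TC.bound (H := H) three free (A := A) indep indep'
  rw [Fintype.card_fin] at h
  have h' : (150 * H.card : ℝ) ≤ 13 * (n : ℝ) ^ 3 := by linarith
  exact_mod_cast h'

end Pool.Agent.Results.MP_a4d830_co.TwoColourableBound
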